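import Mathlib
import Pool.Agent.V11100.BasicSeq
import Pool.Agent.V11100.C0

open Filter Topology
open Pool.Agent.V11100

namespace Pool.Agent.Results.MP_68f07c_an.NotEquivalent

section Defs

variable (𝕜 : Type*) [RCLike 𝕜] {E : Type*} [NormedAddCommGroup E] [NormedSpace 𝕜 E]

/-- The pre-annihilator of a set of functionals. -/
def preAnn (A : Set (StrongDual 𝕜 E)) : Submodule 𝕜 E where
  carrier := {v | ∀ g ∈ A, g v = 0}
  add_mem' := fun {a b} ha hb g hg => by rw [map_add, ha g hg, hb g hg, add_zero]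
  zero_mem' := fun g _ => map_zero g
  smul_mem' := fun c a ha g hg => by rw [map_smul, ha g hg, smul_zero]

/-- Two sequences are equivalent if the same coefficient series converge against them. -/
def Equivalent {U V : Type*} [NormedAddCommGroup U] [NormedSpace 𝕜 U] [NormedAddCommGroup V]
    [NormedSpace 𝕜 V] (u : ℕ → U) (v : ℕ → V) : Prop :=
  ∀ a : ℕ → 𝕜, (∃ s, SeriesTo 𝕜 u a s) ↔ (∃ t, SeriesTo 𝕜 v a t)

/-- The restrictions `φ_n` of the functionals `f_n` to `[x_n]`. -/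
noncomputable def restr (x : ℕ → E) (f : ℕ → StrongDual 𝕜 E) (n : ℕ) : StrongDual 𝕜 (clspan 𝕜 x) :=
  (f n).comp (clspan 𝕜 x).subtypeL

end Defs

variable (𝕜 : Type) [RCLike 𝕜]

/-- `ℓ²`. -/
abbrev L2 : Type := lp (fun _ : ℕ => 𝕜) 2

/-- `ℓ² ⊕ c₀`. -/
def EE : Type := L2 𝕜 × c0 𝕜

noncomputable instance : NormedAddCommGroup (EE 𝕜) :=
  inferInstanceAs (NormedAddCommGroup (L2 𝕜 × c0 𝕜))

noncomputable instance : NormedSpace 𝕜 (EE 𝕜) := inferInstanceAs (NormedSpace 𝕜 (L2 𝕜 × c0 𝕜))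

instance : CompleteSpace (EE 𝕜) := inferInstanceAs (CompleteSpace (L2 𝕜 × c0 𝕜))

/-- The first projection. -/
noncomputable def fstE : EE 𝕜 →L[𝕜] L2 𝕜 := ContinuousLinearMap.fst 𝕜 (L2 𝕜) (c0 𝕜)

/-- The second projection. -/
noncomputable def sndE : EE 𝕜 →L[𝕜] c0 𝕜 := ContinuousLinearMap.snd 𝕜 (L2 𝕜) (c0 𝕜)

theorem norm_eq (v : EE 𝕜) : ‖v‖ = max ‖fstE 𝕜 v‖ ‖sndE 𝕜 v‖ := Prod.norm_def v

theorem fst_le (v : EE 𝕜) : ‖fstE 𝕜 v‖ ≤ ‖v‖ := by rw [norm_eq]; exact le_max_left _ _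

theorem snd_le (v : EE 𝕜) : ‖sndE 𝕜 v‖ ≤ ‖v‖ := by rw [norm_eq]; exact le_max_right _ _

theorem ext_EE {v w : EE 𝕜} (h1 : fstE 𝕜 v = fstE 𝕜 w) (h2 : sndE 𝕜 v = sndE 𝕜 w) : v = w :=
  Prod.ext h1 h2

/-- Pairs. -/
def pr (a : L2 𝕜) (b : c0 𝕜) : EE 𝕜 := (a, b)

theorem fst_pr (a : L2 𝕜) (b : c0 𝕜) : fstE 𝕜 (pr 𝕜 a b) = a := rfl
theorem snd_pr (a : L2 𝕜) (b : c0 𝕜) : sndE 𝕜 (pr 𝕜 a b) = b := rfl

noncomputable def ev2 (j : ℕ) : L2 𝕜 →L[𝕜] 𝕜 := lp.evalCLM 𝕜 (fun _ : ℕ => 𝕜) 2 j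

theorem ev2_apply (j : ℕ) (x : L2 𝕜) : ev2 𝕜 j x = x j := rfl

/-- A map with infinite fibres. -/
def ph (n : ℕ) : ℕ := n - Nat.sqrt n * Nat.sqrt n

theorem ph_fibre (k N : ℕ) (h : k < 2 * N + 1) : ph (N * N + k) = k := by
  have h1 : Nat.sqrt (N * N + k) = N := by
    symm
    rw [Nat.eq_sqrt]
    constructor
    · omega
    · have : (N + 1) * (N + 1) = N * N + (2 * N + 1) := by ring
      omega
  unfold ph
  rw [h1]
  omega

/-- The basic sequence `x_n = (e_n, 0)`. -/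
noncomputable def x (n : ℕ) : EE 𝕜 := pr 𝕜 (lp.single 2 n (1 : 𝕜)) 0

/-- The functionals `f_n(y, z) = y_n + z_n + z_{ph n} / 2`. -/
noncomputable def f (n : ℕ) : StrongDual 𝕜 (EE 𝕜) :=
  (ev2 𝕜 n).comp (fstE 𝕜) + (cev 𝕜 n).comp (sndE 𝕜) + (1 / 2 : 𝕜) • (cev 𝕜 (ph n)).comp (sndE 𝕜)

theorem f_apply (n : ℕ) (v : EE 𝕜) : f 𝕜 n v = (fstE 𝕜 v) n + (sndE 𝕜 v) n
    + (1 / 2 : 𝕜) * (sndE 𝕜 v) (ph n) := rfl

theorem single_apply (i j : ℕ) : (lp.single 2 j (1 : 𝕜) : L2 𝕜) i = if i = j then 1 else 0 := by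
  rw [lp.single_apply]; simp [Pi.single_apply]

theorem biorth (i j : ℕ) : f 𝕜 i (x 𝕜 j) = if i = j then 1 else 0 := by
  rw [f_apply, x, fst_pr, snd_pr, single_apply]
  simp

theorem f_norm (n : ℕ) : ‖f 𝕜 n‖ ≤ 5 / 2 := by
  apply (f 𝕜 n).opNorm_le_bound (by norm_num)
  intro v
  rw [f_apply]
  have h1 : ‖(fstE 𝕜 v) n‖ ≤ ‖v‖ := (lp.norm_apply_le_norm (by norm_num) _ _).trans (fst_le 𝕜 v)
  have h2 : ∀ k, ‖(sndE 𝕜 v) k‖ ≤ ‖v‖ := fun k => (c0_norm_apply_le _ _).trans (snd_le 𝕜 v)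
  calc ‖(fstE 𝕜 v) n + (sndE 𝕜 v) n + (1 / 2 : 𝕜) * (sndE 𝕜 v) (ph n)‖
      ≤ ‖(fstE 𝕜 v) n‖ + ‖(sndE 𝕜 v) n‖ + ‖(1 / 2 : 𝕜) * (sndE 𝕜 v) (ph n)‖ := norm_add₃_le
    _ ≤ ‖v‖ + ‖v‖ + 1 / 2 * ‖v‖ := by
        rw [norm_mul]
        have : ‖(1 / 2 : 𝕜)‖ = 1 / 2 := by simp
        rw [this]
        gcongr
        · exact h2 n
        · exact h2 _
    _ = 5 / 2 * ‖v‖ := by ring

/-- The lower `ℓ¹` estimate. -/
theorem lower (a : ℕ → 𝕜) (m : ℕ) :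
    1 / 2 * ∑ i ∈ Finset.range m, ‖a i‖ ≤ ‖∑ i ∈ Finset.range m, a i • f 𝕜 i‖ := by
  -- the sign vector
  have hs : ∀ i, ∃ s : 𝕜, ‖s‖ ≤ 1 ∧ a i * s = (‖a i‖ : 𝕜) := by
    intro i
    by_cases h0 : a i = 0
    · exact ⟨0, by simp, by simp [h0]⟩
    · refine ⟨(‖a i‖ : 𝕜) / a i, ?_, ?_⟩
      · rw [norm_div]; simp [h0]
      · field_simp
  choose s hs1 hs2 using hs
  let b : ℕ → 𝕜 := fun i => if i < m then s i else 0
  have hb : ∀ i, ‖b i‖ ≤ 1 := by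
    intro i
    simp only [b]
    split_ifs
    · exact hs1 i
    · simp
  let z : c0 𝕜 := mk0 b (tendsto_of_finite b (N := m) (fun n hn => by simp [b, not_lt.mpr hn]))
  have hz : ‖z‖ ≤ 1 := c0_norm_le zero_le_one hb
  have h1 : (∑ i ∈ Finset.range m, a i • f 𝕜 i) (pr 𝕜 0 z)
      = ((∑ i ∈ Finset.range m, ‖a i‖ : ℝ) : 𝕜) + (1 / 2 : 𝕜) * ∑ i ∈ Finset.range m, a i * b (ph i) := by
    rw [sum_apply, Finset.mul_sum, RCLike.ofReal_sum, ← Finset.sum_add_distrib]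
    refine Finset.sum_congr rfl (fun i hi => ?_)
    rw [smul_apply, f_apply, smul_eq_mul]
    have e1 : (fstE 𝕜 (pr 𝕜 0 z)) i = 0 := rfl
    have e2 : ∀ k, (sndE 𝕜 (pr 𝕜 0 z)) k = b k := fun k => rfl
    have e3 : b i = s i := by simp [b, Finset.mem_range.mp hi]
    rw [e1, e2, e2, ← hs2 i, e3]
    ring
  have h2 : ‖∑ i ∈ Finset.range m, a i * b (ph i)‖ ≤ ∑ i ∈ Finset.range m, ‖a i‖ := by
    refine (norm_sum_le _ _).trans (Finset.sum_le_sum (fun i _ => ?_))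
    rw [norm_mul]
    calc ‖a i‖ * ‖b (ph i)‖ ≤ ‖a i‖ * 1 := by gcongr; exact hb _
      _ = ‖a i‖ := mul_one _
  have h3 : ‖(∑ i ∈ Finset.range m, a i • f 𝕜 i) (pr 𝕜 0 z)‖
      ≤ ‖∑ i ∈ Finset.range m, a i • f 𝕜 i‖ := by
    refine ((∑ i ∈ Finset.range m, a i • f 𝕜 i).le_opNorm _).trans ?_
    have : ‖pr 𝕜 0 z‖ ≤ 1 := by
      rw [norm_eq, fst_pr, snd_pr]
      simp [hz]
    calc _ ≤ ‖∑ i ∈ Finset.range m, a i • f 𝕜 i‖ * 1 := by gcongr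
      _ = _ := mul_one _
  have hnn : 0 ≤ ∑ i ∈ Finset.range m, ‖a i‖ := Finset.sum_nonneg (fun _ _ => norm_nonneg _)
  have h4 : ∑ i ∈ Finset.range m, ‖a i‖ - 1 / 2 * ∑ i ∈ Finset.range m, ‖a i‖
      ≤ ‖(∑ i ∈ Finset.range m, a i • f 𝕜 i) (pr 𝕜 0 z)‖ := by
    rw [h1]
    have e1 : ‖(((∑ i ∈ Finset.range m, ‖a i‖ : ℝ)) : 𝕜)‖ = ∑ i ∈ Finset.range m, ‖a i‖ := by
      rw [RCLike.norm_ofReal, abs_of_nonneg hnn]
    have e2 : ‖(1 / 2 : 𝕜) * ∑ i ∈ Finset.range m, a i * b (ph i)‖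
        ≤ 1 / 2 * ∑ i ∈ Finset.range m, ‖a i‖ := by
      rw [norm_mul]
      have : ‖(1 / 2 : 𝕜)‖ = 1 / 2 := by simp
      rw [this]
      gcongr
    have e3 := norm_sub_le_norm_add (((∑ i ∈ Finset.range m, ‖a i‖ : ℝ)) : 𝕜)
      ((1 / 2 : 𝕜) * ∑ i ∈ Finset.range m, a i * b (ph i))
    rw [e1] at e3
    linarith
  linarith

theorem bound_aux (w : ℕ → 𝕜) (m N : ℕ) (h : StrongDual 𝕜 (EE 𝕜))
    (hN : ∑ i ∈ Finset.range (max m N), w i • f 𝕜 i = h) :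
    ‖∑ i ∈ Finset.range m, w i • f 𝕜 i‖ ≤ 5 * ‖h‖ := by
  have h0 : ∀ i, ‖w i • f 𝕜 i‖ ≤ 5 / 2 * ‖w i‖ := by
    intro i
    have e := f_norm 𝕜 i
    calc ‖w i • f 𝕜 i‖ = ‖w i‖ * ‖f 𝕜 i‖ := norm_smul _ _
      _ ≤ ‖w i‖ * (5 / 2) := mul_le_mul_of_nonneg_left e (norm_nonneg _)
      _ = 5 / 2 * ‖w i‖ := mul_comm _ _
  have h1 : ‖∑ i ∈ Finset.range m, w i • f 𝕜 i‖ ≤ ∑ i ∈ Finset.range (max m N), 5 / 2 * ‖w i‖ := by
    calc ‖∑ i ∈ Finset.range m, w i • f 𝕜 i‖ ≤ ∑ i ∈ Finset.range m, ‖w i • f 𝕜 i‖ :=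
          norm_sum_le _ _
      _ ≤ ∑ i ∈ Finset.range m, 5 / 2 * ‖w i‖ := Finset.sum_le_sum (fun i _ => h0 i)
      _ ≤ ∑ i ∈ Finset.range (max m N), 5 / 2 * ‖w i‖ := by
          apply Finset.sum_le_sum_of_subset_of_nonneg
          · exact Finset.range_mono (le_max_left _ _)
          · intro i _ _
            positivity
  have h2 := lower 𝕜 w (max m N)
  rw [hN] at h2
  rw [← Finset.mul_sum] at h1
  linarith

/-- `f` is basic. -/
theorem basic_f : IsBasicSeq 𝕜 (f 𝕜) := by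
  have hb : ∀ i j, NormedSpace.inclusionInDoubleDual 𝕜 (EE 𝕜) (x 𝕜 i) (f 𝕜 j)
      = if i = j then 1 else 0 := by
    intro i j
    rw [NormedSpace.dual_def, biorth]
    simp [eq_comm]
  apply isBasicSeq_of_bound (w := fun i => NormedSpace.inclusionInDoubleDual 𝕜 (EE 𝕜) (x 𝕜 i)) hb
    (C := 5)
  intro h hh m
  obtain ⟨N, hN, _⟩ := span_expansion
    (w := fun i => NormedSpace.inclusionInDoubleDual 𝕜 (EE 𝕜) (x 𝕜 i)) hb hh
  exact bound_aux 𝕜 _ m N h (hN _ (le_max_right _ _))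

/-- `x` is basic. -/
theorem basic_x : IsBasicSeq 𝕜 (x 𝕜) := by
  let w : ℕ → StrongDual 𝕜 (EE 𝕜) := fun i => (ev2 𝕜 i).comp (fstE 𝕜)
  have hw : ∀ i v, w i v = (fstE 𝕜 v) i := fun i v => rfl
  have hb : ∀ i j, w i (x 𝕜 j) = if i = j then 1 else 0 := by
    intro i j
    rw [hw, x, fst_pr]
    exact single_apply 𝕜 i j
  apply isBasicSeq_of_bound (w := w) hb (C := 1)
  intro h _ m
  have e1 : ∑ i ∈ Finset.range m, w i h • x 𝕜 i
      = pr 𝕜 (∑ i ∈ Finset.range m, lp.single 2 i ((fstE 𝕜 h) i)) 0 := by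
    apply ext_EE
    · rw [map_sum, fst_pr]
      refine Finset.sum_congr rfl (fun i _ => ?_)
      rw [map_smul, x, fst_pr, hw, ← lp.single_smul, smul_eq_mul, mul_one]
    · rw [map_sum, snd_pr]
      refine Finset.sum_eq_zero (fun i _ => ?_)
      rw [map_smul, x, snd_pr, smul_zero]
  rw [e1, one_mul, norm_eq, fst_pr, snd_pr]
  have e2 : ‖∑ i ∈ Finset.range m, lp.single 2 i ((fstE 𝕜 h) i)‖ ≤ ‖fstE 𝕜 h‖ := by
    have e3 := lp.norm_sum_single (p := 2) (by norm_num) (fun i => (fstE 𝕜 h) i) (Finset.range m)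
    have e4 := lp.sum_rpow_le_norm_rpow (p := 2) (by norm_num) (fstE 𝕜 h) (Finset.range m)
    have e5 : ‖∑ i ∈ Finset.range m, lp.single 2 i ((fstE 𝕜 h) i)‖ ^ 2 ≤ ‖fstE 𝕜 h‖ ^ 2 := by
      have : (2 : ENNReal).toReal = ((2 : ℕ) : ℝ) := by norm_num
      simp only [this, Real.rpow_natCast] at e3 e4
      rw [e3]
      exact e4
    exact le_of_sq_le_sq e5 (norm_nonneg _)
  rw [norm_zero]
  exact max_le (e2.trans (fst_le 𝕜 h)) (norm_nonneg _)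

theorem preAnn_eq_bot : preAnn 𝕜 (clspan 𝕜 (f 𝕜) : Set (StrongDual 𝕜 (EE 𝕜))) = ⊥ := by
  rw [eq_bot_iff]
  intro v hv
  have hf : ∀ n, f 𝕜 n v = 0 := fun n =>
    hv (f 𝕜 n) (Submodule.le_topologicalClosure _ (Submodule.subset_span ⟨n, rfl⟩))
  set y := fstE 𝕜 v with hy
  set z := sndE 𝕜 v with hz
  have h1 : Tendsto (fun n => y n) atTop (𝓝 0) := by
    have := ((lp.hasSum_single (p := 2) (by norm_num) y).summable).tendsto_atTop_zero
    rw [tendsto_zero_iff_norm_tendsto_zero] at this ⊢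
    refine this.congr (fun j => ?_)
    exact lp.norm_single (by norm_num) _ _
  have h2 : Tendsto (fun n => z n) atTop (𝓝 0) := c0_tendsto z
  have h3 : ∀ n, z (ph n) = -2 * (y n + z n) := by
    intro n
    have h4 := hf n
    rw [f_apply] at h4
    have h5 : (1 / 2 : 𝕜) * z (ph n) = -(y n + z n) := by
      rw [eq_neg_iff_add_eq_zero, add_comm]; exact h4
    calc z (ph n) = 2 * ((1 / 2 : 𝕜) * z (ph n)) := by ring
      _ = _ := by rw [h5]; ring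
  have h6 : Tendsto (fun n => z (ph n)) atTop (𝓝 0) := by
    simp only [h3]
    have := (h1.add h2).const_mul (-2 : 𝕜)
    simpa using this
  have h7 : ∀ k, z k = 0 := by
    intro k
    have h8 : Tendsto (fun N : ℕ => z (ph (N * N + k))) atTop (𝓝 0) :=
      h6.comp (tendsto_atTop_mono (fun N => by
        show N ≤ N * N + k
        have := Nat.le_mul_self N
        omega) tendsto_id)
    have h9 : Tendsto (fun N : ℕ => z (ph (N * N + k))) atTop (𝓝 (z k)) := by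
      apply tendsto_const_nhds.congr'
      filter_upwards [eventually_ge_atTop k] with N hN
      rw [ph_fibre k N (by omega)]
    exact tendsto_nhds_unique h9 h8
  have h10 : z = 0 := by
    ext k
    exact h7 k
  have h11 : y = 0 := by
    apply lp.ext
    funext n
    have h12 := hf n
    rw [f_apply, ← hz, h7, h7] at h12
    simpa using h12
  rw [Submodule.mem_bot]
  apply ext_EE
  · rw [map_zero]; exact h11
  · rw [map_zero]; exact h10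

theorem closed_sum : IsClosed ((clspan 𝕜 (x 𝕜) ⊔
    preAnn 𝕜 (clspan 𝕜 (f 𝕜) : Set (StrongDual 𝕜 (EE 𝕜))) : Submodule 𝕜 (EE 𝕜)) : Set (EE 𝕜)) := by
  rw [preAnn_eq_bot, sup_bot_eq]
  exact Submodule.isClosed_topologicalClosure _

/-- The coefficient sequence `1/(n+1)`. -/
noncomputable def A : L2 𝕜 := ⟨fun n => ((1 / ((n : ℝ) + 1) : ℝ) : 𝕜), by
  apply memℓp_gen
  have h1 : Summable (fun n : ℕ => 1 / ((n : ℝ) + 1) ^ 2) := by
    have := (summable_nat_add_iff 1).mpr (Real.summable_one_div_nat_pow.mpr one_lt_two)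
    simpa using this
  refine h1.congr (fun n => ?_)
  rw [RCLike.norm_ofReal, abs_of_nonneg (by positivity)]
  have : (2 : ENNReal).toReal = ((2 : ℕ) : ℝ) := by norm_num
  rw [this, Real.rpow_natCast]
  simp⟩

theorem A_apply (n : ℕ) : (A 𝕜) n = ((1 / ((n : ℝ) + 1) : ℝ) : 𝕜) := rfl

theorem not_equivalent : ¬ Equivalent 𝕜 (f 𝕜) (restr 𝕜 (x 𝕜) (f 𝕜)) := by
  intro heq
  -- the series against the restrictions converges
  have h1 : ∃ t, SeriesTo 𝕜 (restr 𝕜 (x 𝕜) (f 𝕜)) (fun n => (A 𝕜) n) t := by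
    let R : L2 𝕜 → StrongDual 𝕜 (clspan 𝕜 (x 𝕜)) := fun y =>
      ((innerSL 𝕜 y).comp (fstE 𝕜)).comp (clspan 𝕜 (x 𝕜)).subtypeL
    have hR : Continuous R := by
      have c1 : Continuous (fun y : L2 𝕜 => innerSL 𝕜 y) := (innerSL 𝕜).continuous
      exact (c1.clm_comp continuous_const).clm_comp continuous_const
    refine ⟨R (A 𝕜), ?_⟩
    have h2 : Tendsto (fun m => ∑ i ∈ Finset.range m, lp.single 2 i ((A 𝕜) i)) atTop (𝓝 (A 𝕜)) :=
      (lp.hasSum_single (p := 2) (by norm_num) (A 𝕜)).tendsto_sum_nat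
    have h3 := (hR.tendsto (A 𝕜)).comp h2
    refine h3.congr (fun m => ?_)
    -- every vector of `[x_n]` has second coordinate zero
    have hsnd : ∀ v ∈ clspan 𝕜 (x 𝕜), sndE 𝕜 v = 0 := by
      intro v hv
      have h4 : clspan 𝕜 (x 𝕜) ≤ LinearMap.ker (sndE 𝕜 : EE 𝕜 →ₗ[𝕜] c0 𝕜) := by
        apply Submodule.topologicalClosure_minimal
        · rw [Submodule.span_le]
          rintro _ ⟨n, rfl⟩
          rfl
        · exact (sndE 𝕜).isClosed_ker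
      exact h4 hv
    ext v
    have hv2 := hsnd v v.2
    simp only [Function.comp, R, ContinuousLinearMap.comp_apply, sum_apply, smul_apply, restr,
      Submodule.subtypeL_apply, innerSL_apply_apply, sum_inner, smul_eq_mul]
    refine Finset.sum_congr rfl (fun i _ => ?_)
    rw [lp.inner_single_left, f_apply, hv2]
    simp [A_apply, mul_comm]
  obtain ⟨s, hs⟩ := (heq (fun n => (A 𝕜) n)).mpr h1
  -- but the series against the functionals is unbounded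
  unfold SeriesTo at hs
  obtain ⟨M, hM⟩ := isBounded_iff_forall_norm_le.mp (Metric.isBounded_range_of_tendsto _ hs)
  have h5 : ∀ m : ℕ, ∑ i ∈ Finset.range m, 1 / ((i : ℝ) + 1) ≤ 2 * M := by
    intro m
    have h6 := lower 𝕜 (fun n => (A 𝕜) n) m
    have h7 := hM _ (Set.mem_range_self m)
    have h8 : ∑ i ∈ Finset.range m, ‖(A 𝕜) i‖ = ∑ i ∈ Finset.range m, 1 / ((i : ℝ) + 1) := by
      refine Finset.sum_congr rfl (fun i _ => ?_)
      rw [A_apply, RCLike.norm_ofReal, abs_of_nonneg (by positivity)]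
    rw [h8] at h6
    linarith
  obtain ⟨m, hm⟩ := (Real.tendsto_sum_range_one_div_nat_succ_atTop.eventually
    (eventually_gt_atTop (2 * M))).exists
  exact absurd (h5 m) (not_le.mpr hm)

end Pool.Agent.Results.MP_68f07c_an.NotEquivalent

open Pool.Agent.Results.MP_68f07c_an.NotEquivalent Pool.Agent.V11100 in
/-- A biorthogonal system with `(x_n)`, `(f_n)` basic and `[x_n] + [f_n]_⊥` closed, for which
`(f_n)` is not equivalent to the restrictions to `[x_n]`. -/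
theorem Pool.Agent.Results.MP_68f07c_an.NotEquivalent.result (𝕜 : Type) [RCLike 𝕜] :
    ∃ (E : Type) (_ : NormedAddCommGroup E) (_ : NormedSpace 𝕜 E) (_ : CompleteSpace E)
      (x : ℕ → E) (f : ℕ → StrongDual 𝕜 E),
      (∀ i j, f i (x j) = if i = j then 1 else 0) ∧ IsBasicSeq 𝕜 x ∧ IsBasicSeq 𝕜 f ∧
        IsClosed ((clspan 𝕜 x ⊔ preAnn 𝕜 (clspan 𝕜 f : Set (StrongDual 𝕜 E)) : Submodule 𝕜 E) :
          Set E) ∧
        ¬ Equivalent 𝕜 f (restr 𝕜 x f) :=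
  ⟨EE 𝕜, inferInstance, inferInstance, inferInstance, x 𝕜, f 𝕜, biorth 𝕜, basic_x 𝕜, basic_f 𝕜,
    closed_sum 𝕜, not_equivalent 𝕜⟩
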